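import Pool.Agent.W361.LQ.Stm

set_option autoImplicit false

namespace Pool.Agent.W605.LQ.Forth

open Pool.Agent.W361.LQ

theorem exists_theta (u : UnitAddCircle) (m : ℕ) (hm : 0 < m) :
    ∃ θ : ℕ, ‖u - (((θ : ℝ) / (16 * m) : ℝ) : UnitAddCircle)‖ ≤ 1 / (32 * m) := by
  have hm' : (0 : ℝ) < m := by exact_mod_cast hm
  obtain ⟨x, hx, hxn⟩ := lift u
  have hx1 : |x| ≤ 1 / 2 := hxn ▸ norm_circle_le u
  have hx2 : -(1 / 2) ≤ x := (abs_le.mp hx1).1
  have hx' : ((x + 1 : ℝ) : UnitAddCircle) = u := by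
    rw [AddCircle.coe_add, hx, AddCircle.coe_period, add_zero]
  have h0 : 0 ≤ 16 * m * (x + 1) + 1 / 2 := by
    have : 0 ≤ x + 1 := by linarith
    positivity
  refine ⟨⌊16 * m * (x + 1) + 1 / 2⌋₊, ?_⟩
  have h1 := Nat.floor_le h0
  have h2 := Nat.lt_floor_add_one (16 * m * (x + 1) + 1 / 2)
  set θ : ℝ := (⌊16 * m * (x + 1) + 1 / 2⌋₊ : ℝ) with hθ
  rw [← hx', ← AddCircle.coe_sub]
  refine (norm_coe_le _).trans ?_
  have h3 : x + 1 - θ / (16 * m) = (16 * m * (x + 1) - θ) / (16 * m) := by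
    field_simp
  rw [h3, abs_div, abs_of_pos (by positivity : (0 : ℝ) < 16 * m), div_le_div_iff₀ (by positivity)
    (by positivity)]
  have h4 : |16 * m * (x + 1) - θ| ≤ 1 / 2 := by
    rw [abs_le]; constructor <;> linarith
  nlinarith

theorem main : S_FORTH := by
  intro hnear Y _ _ y hy f g C d m hm hF hfg
  have hm' : (0 : ℝ) < m := by exact_mod_cast hm
  have hgu : UniformContinuous g := CompactSpace.uniformContinuous_of_continuous g.continuous
  obtain ⟨δ, hδ, hgδ⟩ := Metric.uniformContinuous_iff.mp hgu (1 / (16 * m)) (by positivity)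
  obtain ⟨N, hN⟩ := exists_nat_gt (3 / δ)
  obtain ⟨e, hde, hNe⟩ : ∃ e : ℕ, d ≤ e ∧ N ≤ e := ⟨max d N, le_max_left _ _, le_max_right _ _⟩
  have he : 3 / ((e : ℝ) + 1) < δ := by
    have h1 : (N : ℝ) ≤ e := by exact_mod_cast hNe
    rw [div_lt_iff₀ hδ] at hN
    rw [div_lt_iff₀ (by positivity)]
    nlinarith
  have hcov : (Set.univ : Set Y) ⊆ ⋃ i : ℕ, Metric.ball (y i) (1 / ((e : ℝ) + 1)) := by
    intro a _
    obtain ⟨i, hi⟩ := hy.exists_dist_lt a (by positivity : (0 : ℝ) < 1 / ((e : ℝ) + 1))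
    exact Set.mem_iUnion.mpr ⟨i, Metric.mem_ball.mpr hi⟩
  obtain ⟨s, hs⟩ := isCompact_univ.elim_finite_subcover _ (fun i => Metric.isOpen_ball) hcov
  choose θ hθ using fun i : ℕ => exists_theta (g (y i)) m hm
  have hmem : ∀ p : ℕ × ℕ, p ∈ s.toList.map (fun i => (i, θ i)) → p.2 = θ p.1 := by
    intro p hp
    obtain ⟨i, _, rfl⟩ := List.mem_map.mp hp
    rfl
  refine ⟨s.toList.map (fun i => (i, θ i)), e, ?_⟩
  constructor
  · exact hde
  · intro j
    have := hs (Set.mem_univ (y j))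
    rw [Set.mem_iUnion₂] at this
    obtain ⟨i, hi, hij⟩ := this
    refine ⟨(i, θ i), List.mem_map.mpr ⟨i, Finset.mem_toList.mpr hi, rfl⟩, ?_⟩
    rw [Metric.mem_ball] at hij
    intro h
    have h' : ((1 : ℕ) : ℝ) / ((e : ℝ) + 1) < dist (y j) (y i) := h
    rw [Nat.cast_one] at h'
    exact absurd h' (not_lt.mpr hij.le)
  · intro p hp p' hp' hlt
    have h1 : dist (y p.1) (y p'.1) < ((3 : ℕ) : ℝ) / ((e : ℝ) + 1) := hlt
    have h2 : dist (y p.1) (y p'.1) < δ := lt_trans (by exact_mod_cast h1) he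
    have h3 := hgδ h2
    rw [dist_eq_norm] at h3
    rw [hmem p hp, hmem p' hp', hnear _ _ _ _ (by positivity)]
    have e1 : (((16 * m : ℕ) : ℝ)) = 16 * m := by push_cast; ring
    rw [e1]
    set u : UnitAddCircle := (((θ p.1 : ℝ) / (16 * m) : ℝ) : UnitAddCircle) with hu
    set v : UnitAddCircle := (((θ p'.1 : ℝ) / (16 * m) : ℝ) : UnitAddCircle) with hv
    have e2 : u - v = -(g (y p.1) - u) + (g (y p.1) - g (y p'.1)) + (g (y p'.1) - v) := by abel
    rw [e2]
    have h4 := hθ p.1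
    have h5 := hθ p'.1
    have h6 : ‖-(g (y p.1) - u) + (g (y p.1) - g (y p'.1)) + (g (y p'.1) - v)‖ ≤
        1 / (32 * m) + 1 / (16 * m) + 1 / (32 * m) := by
      refine (norm_add_le _ _).trans (add_le_add ((norm_add_le _ _).trans
        (add_le_add ?_ h3.le)) h5)
      rw [norm_neg]; exact h4
    refine h6.trans (le_of_eq ?_)
    push_cast
    field_simp
    norm_num
  · intro p hp
    obtain ⟨c, hc, hcd⟩ := hF.net (y p.1)
    refine ⟨c, hc, ?_, ?_⟩
    · have : dist (y p.1) (y c.1) < ((1 : ℕ) : ℝ) / ((d : ℝ) + 1) := by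
        rw [Nat.cast_one]; exact hcd
      exact this
    · rw [hmem p hp, hnear _ _ _ _ (by norm_num)]
      have h1 : ‖f (y p.1) - f (y c.1)‖ ≤ 1 / 16 := by
        refine hF.unif _ _ (hcd.le.trans ?_)
        gcongr
        norm_num
      have h2 := hF.val c hc
      set u : UnitAddCircle := (((θ p.1 : ℝ) / (16 * m) : ℝ) : UnitAddCircle) with hu
      have e1 : ((((θ p.1 : ℝ)) / ((16 : ℕ) : ℝ) : ℝ) : UnitAddCircle) = m • u := by
        rw [hu, ← AddCircle.coe_nsmul]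
        congr 1
        rw [nsmul_eq_mul]
        push_cast
        field_simp
      have h3 : ‖m • u - f (y p.1)‖ ≤ 1 / 32 := by
        rw [← hfg, ← nsmul_sub]
        refine (norm_nsmul_le).trans ?_
        rw [norm_sub_rev]
        have h4 := mul_le_mul_of_nonneg_left (hθ p.1) hm'.le
        refine le_trans ?_ (h4.trans (le_of_eq ?_))
        · rfl
        · field_simp
      rw [e1]
      have e2 : ((((c.2 : ℕ) : ℝ) / ((16 : ℕ) : ℝ) : ℝ) : UnitAddCircle) =
          (((c.2 : ℝ) / 16 : ℝ) : UnitAddCircle) := by norm_num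
      rw [e2]
      set v : UnitAddCircle := (((c.2 : ℝ) / 16 : ℝ) : UnitAddCircle) with hv
      have e3 : m • u - v = (m • u - f (y p.1)) + (f (y p.1) - f (y c.1)) + (f (y c.1) - v) := by
        abel
      rw [e3]
      refine ((norm_add_le _ _).trans (add_le_add ((norm_add_le _ _).trans
        (add_le_add h3 h1)) h2)).trans (le_of_eq ?_)
      norm_num

end Pool.Agent.W605.LQ.Forth
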